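import Mathlib

set_option autoImplicit false

open Set Metric

namespace Pool.Agent.V1171.Kob

/-- The Poincaré distance of the unit disc. -/
noncomputable def poincare (a b : ℂ) : ℝ :=
  Real.artanh ‖(a - b) / (1 - (starRingEnd ℂ) a * b)‖

/-- There is a Kobayashi chain of `m` discs from `z` to `w` in `Ω` of length `L`: points
`z = p 0, …, p m = w` of `Ω`, holomorphic `f j : 𝔻 → Ω` and `a j, b j ∈ 𝔻` with `f j (a j) = p j` and
`f j (b j) = p (j + 1)`, and `L = ∑ ρ (a j, b j)`. -/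
def IsChain {n : ℕ} (Ω : Set (Fin n → ℂ)) (m : ℕ) (z w : Fin n → ℂ) (L : ℝ) : Prop :=
  ∃ (p : ℕ → Fin n → ℂ) (f : ℕ → ℂ → Fin n → ℂ) (a b : ℕ → ℂ),
    p 0 = z ∧ p m = w ∧ (∀ j ≤ m, p j ∈ Ω) ∧
    (∀ j < m, DifferentiableOn ℂ (f j) (ball 0 1) ∧ (∀ x ∈ ball (0 : ℂ) 1, f j x ∈ Ω) ∧
      a j ∈ ball (0 : ℂ) 1 ∧ b j ∈ ball (0 : ℂ) 1 ∧ f j (a j) = p j ∧ f j (b j) = p (j + 1)) ∧
    L = ∑ j ∈ Finset.range m, poincare (a j) (b j)

/-- The Kobayashi distance: the infimum of the lengths of all chains. -/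
noncomputable def kob {n : ℕ} (Ω : Set (Fin n → ℂ)) (z w : Fin n → ℂ) : ℝ :=
  sInf {L | ∃ m, IsChain Ω m z w L}

/-- `Ω` is a bounded strongly pseudoconvex domain: it is open, connected and bounded, and
`Ω = {ρ < 0}` for a function `ρ` of class `C²` on a neighbourhood `O` of the closure of `Ω` with
`dρ ≠ 0` on `∂Ω`, whose Levi form (`ρ''(v, v) + ρ''(iv, iv)`, up to the factor `4`) is positive definite
on the complex tangent space at every boundary point. -/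
def StronglyPseudoconvex {n : ℕ} (Ω : Set (Fin n → ℂ)) : Prop :=
  IsOpen Ω ∧ IsConnected Ω ∧ Bornology.IsBounded Ω ∧
    ∃ (O : Set (Fin n → ℂ)) (ρ : (Fin n → ℂ) → ℝ), IsOpen O ∧ closure Ω ⊆ O ∧
      ContDiffOn ℝ 2 ρ O ∧ Ω = {z | z ∈ O ∧ ρ z < 0} ∧
      ∀ p ∈ frontier Ω, fderiv ℝ ρ p ≠ 0 ∧
        ∀ v : Fin n → ℂ, v ≠ 0 → fderiv ℝ ρ p v = 0 → fderiv ℝ ρ p (Complex.I • v) = 0 →
          0 < fderiv ℝ (fderiv ℝ ρ) p v v +
            fderiv ℝ (fderiv ℝ ρ) p (Complex.I • v) (Complex.I • v)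

end Pool.Agent.V1171.Kob
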