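import Mathlib
import Pool.Agent.V1171.Kob.Defs

set_option autoImplicit false

open Set Metric Filter Topology

namespace Pool.Agent.V1171.Kob

/-- Near a regular point the sublevel set lies in one component. -/
theorem local_conn {E : Type*} [NormedAddCommGroup E] [NormedSpace ℝ E] {ρ : E → ℝ}
    (hρ : ContDiff ℝ 1 ρ) {p : E} (c : ℝ) (hd : fderiv ℝ ρ p ≠ 0) :
    ∃ W ∈ 𝓝 p, ∀ x ∈ W, ∀ y ∈ W, ρ x < c → ρ y < c →
      y ∈ connectedComponentIn {z | ρ z < c} x := by
  -- the direction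
  obtain ⟨v0, hv0⟩ : ∃ v0, fderiv ℝ ρ p v0 ≠ 0 := by
    by_contra h
    push Not at h
    exact hd (ContinuousLinearMap.ext h)
  set v : E := (-(fderiv ℝ ρ p v0)⁻¹) • v0 with hv
  have hpv : fderiv ℝ ρ p v = -1 := by
    rw [hv, map_smul, smul_eq_mul]
    field_simp
  have hcont : Continuous (fderiv ℝ ρ) := hρ.continuous_fderiv (by norm_num)
  have hdiff : Differentiable ℝ ρ := hρ.differentiable (by norm_num)
  set L : ℝ := ‖fderiv ℝ ρ p‖ + 1 with hL
  have hL0 : 0 < L := by positivity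
  have h1 : ∀ᶠ x in 𝓝 p, fderiv ℝ ρ x v < -(1 / 2) := by
    have hc : ContinuousAt (fun x => fderiv ℝ ρ x v) p :=
      (hcont.clm_apply continuous_const).continuousAt
    apply hc.eventually_lt_const
    show fderiv ℝ ρ p v < -(1 / 2)
    rw [hpv]; norm_num
  have h2 : ∀ᶠ x in 𝓝 p, ‖fderiv ℝ ρ x‖ < L := by
    apply (hcont.norm.continuousAt (x := p)).eventually_lt_const
    show ‖fderiv ℝ ρ p‖ < L
    rw [hL]; linarith
  obtain ⟨r, hr, hball⟩ := Metric.eventually_nhds_iff_ball.mp (h1.and h2)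
  set r' : ℝ := r / (1 + 4 * L * ‖v‖) with hr'
  have hr'0 : 0 < r' := by positivity
  have hr'r : r' + 4 * L * r' * ‖v‖ = r := by rw [hr']; field_simp
  set τ : ℝ := 4 * L * r' with hτ
  have hτ0 : 0 < τ := by positivity
  -- points reached
  have hin : ∀ m ∈ ball p r', ∀ s : ℝ, 0 ≤ s → s ≤ τ → m + s • v ∈ ball p r := by
    intro m hm s hs0 hs
    rw [mem_ball, dist_eq_norm] at hm ⊢
    have e : m + s • v - p = (m - p) + s • v := by abel
    rw [e]
    calc ‖(m - p) + s • v‖ ≤ ‖m - p‖ + ‖s • v‖ := norm_add_le _ _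
      _ = ‖m - p‖ + s * ‖v‖ := by rw [norm_smul, Real.norm_of_nonneg hs0]
      _ < r' + τ * ‖v‖ := by
          have := mul_le_mul_of_nonneg_right hs (norm_nonneg v)
          linarith
      _ = r := by rw [hτ]; linarith
  have hdec : ∀ m ∈ ball p r', ∀ s : ℝ, 0 ≤ s → s ≤ τ → ρ (m + s • v) ≤ ρ m - s / 2 := by
    intro m hm s hs0 hs
    have hg : ∀ u : ℝ, HasDerivAt (fun u : ℝ => ρ (m + u • v)) (fderiv ℝ ρ (m + u • v) v) u := by
      intro u
      have e1 : HasDerivAt (fun u : ℝ => m + u • v) v u := by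
        simpa using ((hasDerivAt_id u).smul_const v).const_add m
      exact (hdiff (m + u • v)).hasFDerivAt.comp_hasDerivAt u e1
    have := Convex.image_sub_le_mul_sub_of_deriv_le (D := Icc 0 τ) (convex_Icc 0 τ)
      (f := fun u : ℝ => ρ (m + u • v)) (C := -(1 / 2))
      (fun u _ => (hg u).continuousAt.continuousWithinAt)
      (fun u _ => (hg u).differentiableAt.differentiableWithinAt)
      (fun u hu => by
        rw [interior_Icc] at hu
        rw [(hg u).deriv]
        exact (hball _ (hin m hm u hu.1.le hu.2.le)).1.le)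
      0 ⟨le_refl 0, hτ0.le⟩ s ⟨hs0, hs⟩ hs0
    simp only [zero_smul, add_zero, sub_zero] at this
    linarith
  have hsub : ball p r' ⊆ ball p r := by
    apply ball_subset_ball
    have : 0 ≤ 4 * L * r' * ‖v‖ := by positivity
    linarith
  have hlip : ∀ x ∈ ball p r', ∀ m ∈ ball p r', ρ m ≤ ρ x + L * ‖m - x‖ := by
    intro x hx m hm
    have := Convex.norm_image_sub_le_of_norm_fderiv_le (𝕜 := ℝ) (f := ρ) (s := ball p r) (C := L)
      (fun y _ => hdiff y) (fun y hy => (hball y hy).2.le) (convex_ball p r) (hsub hx) (hsub hm)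
    have h3 := le_abs_self (ρ m - ρ x)
    rw [Real.norm_eq_abs] at this
    linarith
  refine ⟨ball p r', ball_mem_nhds p hr'0, ?_⟩
  intro x hx y hy hxc hyc
  -- the connected set
  set T1 : Set E := (fun s : ℝ => x + s • v) '' Icc 0 τ with hT1
  set T2 : Set E := (fun m : E => m + τ • v) '' segment ℝ x y with hT2
  set T3 : Set E := (fun s : ℝ => y + s • v) '' Icc 0 τ with hT3
  have c1 : IsPreconnected T1 := isPreconnected_Icc.image _ (by fun_prop)
  have c2 : IsPreconnected T2 := (convex_segment x y).isPreconnected.image _ (by fun_prop)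
  have c3 : IsPreconnected T3 := isPreconnected_Icc.image _ (by fun_prop)
  have c12 : IsPreconnected (T1 ∪ T2) := by
    apply c1.union (x + τ • v)
    · exact ⟨τ, ⟨hτ0.le, le_refl τ⟩, rfl⟩
    · exact ⟨x, left_mem_segment ℝ x y, rfl⟩
    · exact c2
  have c123 : IsPreconnected (T1 ∪ T2 ∪ T3) := by
    apply c12.union (y + τ • v)
    · exact Or.inr ⟨y, right_mem_segment ℝ x y, rfl⟩
    · exact ⟨τ, ⟨hτ0.le, le_refl τ⟩, rfl⟩
    · exact c3
  have hsubT : T1 ∪ T2 ∪ T3 ⊆ {z | ρ z < c} := by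
    rintro z ((⟨s, hs, rfl⟩ | ⟨m, hm, rfl⟩) | ⟨s, hs, rfl⟩)
    · have := hdec x hx s hs.1 hs.2
      show ρ (x + s • v) < c
      linarith [hs.1]
    · have hmb : m ∈ ball p r' := (convex_ball p r').segment_subset hx hy hm
      have e1 := hdec m hmb τ hτ0.le le_rfl
      have e2 := hlip x hx m hmb
      have e3 : ‖m - x‖ ≤ 2 * r' := by
        rw [← dist_eq_norm]
        have := dist_triangle m p x
        have h4 := mem_ball.mp hmb
        have h5 := mem_ball'.mp hx
        linarith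
      have e4 : L * ‖m - x‖ ≤ L * (2 * r') := mul_le_mul_of_nonneg_left e3 hL0.le
      show ρ (m + τ • v) < c
      have e5 : τ / 2 = L * (2 * r') := by rw [hτ]; ring
      linarith
    · have := hdec y hy s hs.1 hs.2
      show ρ (y + s • v) < c
      linarith [hs.1]
  have hx0 : x ∈ T1 ∪ T2 ∪ T3 := Or.inl (Or.inl ⟨0, ⟨le_refl 0, hτ0.le⟩, by simp⟩)
  have hy0 : y ∈ T1 ∪ T2 ∪ T3 := Or.inr ⟨0, ⟨le_refl 0, hτ0.le⟩, by simp⟩
  exact c123.subset_connectedComponentIn hx0 hsubT hy0

/-- A component of a regular sublevel set of a strictly plurisubharmonic function is a strongly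
pseudoconvex domain. -/
theorem spc_component {n : ℕ} {ρ : (Fin n → ℂ) → ℝ} {c : ℝ} (hρ : ContDiff ℝ 2 ρ)
    (hreg : ∀ p, ρ p = c → fderiv ℝ ρ p ≠ 0)
    (hLevi : ∀ p v, v ≠ 0 → 0 < fderiv ℝ (fderiv ℝ ρ) p v v +
      fderiv ℝ (fderiv ℝ ρ) p (Complex.I • v) (Complex.I • v))
    (hb : Bornology.IsBounded {z | ρ z < c}) {z0 : Fin n → ℂ} (h0 : ρ z0 < c) :
    StronglyPseudoconvex (connectedComponentIn {z | ρ z < c} z0) := by
  set Ω' : Set (Fin n → ℂ) := {z | ρ z < c} with hΩ'
  set Ω : Set (Fin n → ℂ) := connectedComponentIn Ω' z0 with hΩ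
  have hΩ'o : IsOpen Ω' := isOpen_lt hρ.continuous continuous_const
  have hΩo : IsOpen Ω := hΩ'o.connectedComponentIn
  have hsub : Ω ⊆ Ω' := connectedComponentIn_subset _ _
  have hz0 : z0 ∈ Ω := mem_connectedComponentIn h0
  -- boundary points
  have hbd : ∀ p ∈ frontier Ω, ρ p = c := by
    intro p hp
    have h1 : ρ p ≤ c := by
      have : closure Ω ⊆ {z | ρ z ≤ c} :=
        closure_minimal (fun z hz => le_of_lt (show ρ z < c from hsub hz)) (isClosed_le hρ.continuous continuous_const)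
      exact this hp.1
    rcases h1.lt_or_eq with h2 | h2
    · exfalso
      have hpΩ' : p ∈ Ω' := h2
      have hnb : connectedComponentIn Ω' p ∈ 𝓝 p :=
        (hΩ'o.connectedComponentIn).mem_nhds (mem_connectedComponentIn hpΩ')
      obtain ⟨q, hq1, hq2⟩ := mem_closure_iff_nhds.mp hp.1 _ hnb
      have e1 : connectedComponentIn Ω' q = connectedComponentIn Ω' p :=
        (connectedComponentIn_eq hq1).symm
      have e2 : connectedComponentIn Ω' q = Ω := (connectedComponentIn_eq hq2).symm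
      have h3 : p ∈ Ω := by
        rw [← e2, e1]
        exact mem_connectedComponentIn hpΩ'
      have h4 : p ∉ interior Ω := hp.2
      rw [hΩo.interior_eq] at h4
      exact h4 h3
    · exact h2
  -- the neighbourhood
  set O : Set (Fin n → ℂ) := (closure (Ω' \ Ω))ᶜ with hO
  have hOo : IsOpen O := isClosed_closure.isOpen_compl
  have hΩO : Ω ⊆ O := by
    intro z hz hzc
    obtain ⟨q, hq1, hq2⟩ := mem_closure_iff_nhds.mp hzc Ω (hΩo.mem_nhds hz)
    exact hq2.2 hq1
  have hclO : closure Ω ⊆ O := by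
    intro p hp
    by_cases hpΩ : p ∈ Ω
    · exact hΩO hpΩ
    · have hfr : p ∈ frontier Ω := ⟨hp, by rwa [hΩo.interior_eq]⟩
      obtain ⟨W, hW, hWc⟩ := local_conn (hρ.of_le (by norm_num)) c (hreg p (hbd p hfr))
      intro hpc
      obtain ⟨q, hq1, hq2⟩ := mem_closure_iff_nhds.mp hpc W hW
      obtain ⟨q', hq1', hq2'⟩ := mem_closure_iff_nhds.mp hp W hW
      apply hq2.2
      have h3 := hWc q' hq1' q hq1 (hsub hq2') hq2.1
      have e2 : connectedComponentIn Ω' q' = Ω := (connectedComponentIn_eq hq2').symm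
      rw [← e2]
      exact h3
  refine ⟨hΩo, ⟨⟨z0, hz0⟩, isPreconnected_connectedComponentIn⟩, hb.subset hsub, O,
    fun z => ρ z - c, hOo, hclO, (hρ.sub contDiff_const).contDiffOn, ?_, ?_⟩
  · ext z
    constructor
    · intro hz
      exact ⟨hΩO hz, sub_neg.mpr (hsub hz)⟩
    · rintro ⟨hzO, hz⟩
      by_contra hzΩ
      exact hzO (subset_closure ⟨sub_neg.mp hz, hzΩ⟩)
  · have e1 : fderiv ℝ (fun z => ρ z - c) = fderiv ℝ ρ := by
      funext z
      exact fderiv_sub_const c
    rw [e1]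
    intro p hp
    exact ⟨hreg p (hbd p hp), fun v hv _ _ => hLevi p v hv⟩

end Pool.Agent.V1171.Kob
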