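import Mathlib
import Pool.Agent.V1171.Kob.Defs

set_option autoImplicit false

open Set Metric Filter Topology ComplexConjugate

namespace Pool.Agent.V1171.Kob

/-- The Levi form (times `4`). -/
noncomputable def lev {n : ℕ} (ρ : (Fin n → ℂ) → ℝ) (p v : Fin n → ℂ) : ℝ :=
  fderiv ℝ (fderiv ℝ ρ) p v v + fderiv ℝ (fderiv ℝ ρ) p (Complex.I • v) (Complex.I • v)

theorem lev_add {n : ℕ} {f g : (Fin n → ℂ) → ℝ} (hf : ContDiff ℝ 2 f) (hg : ContDiff ℝ 2 g)
    (p v : Fin n → ℂ) : lev (fun z => f z + g z) p v = lev f p v + lev g p v := by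
  have e1 : fderiv ℝ (fun z => f z + g z) = fun z => fderiv ℝ f z + fderiv ℝ g z := by
    funext z
    exact fderiv_fun_add ((hf.differentiable (by norm_num)) z) ((hg.differentiable (by norm_num)) z)
  have e2 : fderiv ℝ (fun z => fderiv ℝ f z + fderiv ℝ g z) p =
      fderiv ℝ (fderiv ℝ f) p + fderiv ℝ (fderiv ℝ g) p := by
    apply fderiv_fun_add
    · exact ((hf.fderiv_right (m := 1) (by norm_num)).differentiable (by norm_num)) p
    · exact ((hg.fderiv_right (m := 1) (by norm_num)).differentiable (by norm_num)) p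
  unfold lev
  rw [e1, e2]
  simp only [ContinuousLinearMap.add_apply]
  ring

theorem lev_const_mul {n : ℕ} {f : (Fin n → ℂ) → ℝ} (hf : ContDiff ℝ 2 f) (c : ℝ)
    (p v : Fin n → ℂ) : lev (fun z => c * f z) p v = c * lev f p v := by
  have e1 : fderiv ℝ (fun z => c * f z) = fun z => c • fderiv ℝ f z := by
    funext z
    exact fderiv_const_mul ((hf.differentiable (by norm_num)) z) c
  have e2 : fderiv ℝ (fun z => c • fderiv ℝ f z) p = c • fderiv ℝ (fderiv ℝ f) p := by
    have h := ((hf.fderiv_right (m := 1) (by norm_num)).differentiable (by norm_num)) p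
    exact (h.hasFDerivAt.const_smul c).fderiv
  unfold lev
  rw [e1, e2]
  simp only [ContinuousLinearMap.smul_apply, smul_eq_mul]
  ring

theorem lev_linear {n : ℕ} (a : (Fin n → ℂ) →L[ℝ] ℝ) (p v : Fin n → ℂ) :
    lev (fun z => a z) p v = 0 := by
  have e1 : fderiv ℝ (fun z => a z) = fun _ => a := by
    funext z
    exact a.fderiv
  unfold lev
  rw [e1]
  simp

/-- The Levi form of `|g|²`, `g` holomorphic. -/
theorem lev_normSq {n : ℕ} {g : (Fin n → ℂ) → ℂ} (hg : ContDiff ℂ 3 g) (p v : Fin n → ℂ) :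
    lev (fun z => ‖g z‖ ^ 2) p v = 4 * ‖fderiv ℂ g p v‖ ^ 2 := by
  have hgd : Differentiable ℂ g := hg.differentiable (by norm_num)
  have hgR : ∀ x, HasFDerivAt g ((fderiv ℂ g x).restrictScalars ℝ) x := fun x =>
    (hgd x).hasFDerivAt.restrictScalars ℝ
  -- first derivative
  have h1 : ∀ x w, fderiv ℝ (fun z => ‖g z‖ ^ 2) x w = 2 * (conj (g x) * fderiv ℂ g x w).re := by
    intro x w
    have e := (hgR x).norm_sq
    rw [e.fderiv]
    simp only [ContinuousLinearMap.smul_apply, ContinuousLinearMap.comp_apply, innerSL_apply_apply,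
      ContinuousLinearMap.coe_restrictScalars', Complex.inner]
    simp
    ring
  have hC2 : ContDiff ℝ 2 (fun z => ‖g z‖ ^ 2) := (((hg.restrict_scalars ℝ).of_le (by norm_num)).norm_sq ℝ)
  -- second derivative
  have h2 : ∀ u w, fderiv ℝ (fderiv ℝ (fun z => ‖g z‖ ^ 2)) p u w =
      2 * (conj (fderiv ℂ g p u) * fderiv ℂ g p w + conj (g p) *
        fderiv ℂ (fun x => fderiv ℂ g x w) p u).re := by
    intro u w
    have e1 : HasFDerivAt (fderiv ℝ (fun z => ‖g z‖ ^ 2))
        (fderiv ℝ (fderiv ℝ (fun z => ‖g z‖ ^ 2)) p) p :=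
      (((hC2.fderiv_right (m := 1) (by norm_num)).differentiable (by norm_num)) p).hasFDerivAt
    have e2 : HasFDerivAt (fun x => fderiv ℝ (fun z => ‖g z‖ ^ 2) x w)
        ((ContinuousLinearMap.apply ℝ ℝ w).comp (fderiv ℝ (fderiv ℝ (fun z => ‖g z‖ ^ 2)) p)) p :=
      (ContinuousLinearMap.apply ℝ ℝ w).hasFDerivAt.comp p e1
    have e3 : (fun x => fderiv ℝ (fun z => ‖g z‖ ^ 2) x w) =
        fun x => 2 * (conj (g x) * fderiv ℂ g x w).re := by
      funext x
      exact h1 x w
    rw [e3] at e2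
    have hq : DifferentiableAt ℂ (fun x => fderiv ℂ g x w) p := by
      have := ((hg.fderiv_right (m := 1) (by norm_num)).differentiable (by norm_num)) p
      exact this.clm_apply (differentiableAt_const w)
    have e4 : HasFDerivAt (fun x => fderiv ℂ g x w)
        ((fderiv ℂ (fun x => fderiv ℂ g x w) p).restrictScalars ℝ) p :=
      hq.hasFDerivAt.restrictScalars ℝ
    have e5 : HasFDerivAt (fun x => conj (g x))
        ((Complex.conjCLE : ℂ →L[ℝ] ℂ).comp ((fderiv ℂ g p).restrictScalars ℝ)) p :=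
      (Complex.conjCLE : ℂ →L[ℝ] ℂ).hasFDerivAt.comp p (hgR p)
    have e6 := (Complex.reCLM.hasFDerivAt.comp p (e5.mul e4)).const_mul 2
    have e7 := e2.unique e6
    have e8 := congrArg (fun T : (Fin n → ℂ) →L[ℝ] ℝ => T u) e7
    simp only [ContinuousLinearMap.comp_apply, ContinuousLinearMap.apply_apply] at e8
    rw [e8]
    simp
    ring
  have h3 : (fun x => fderiv ℂ g x (Complex.I • v)) = fun x => Complex.I * fderiv ℂ g x v := by
    funext x
    rw [map_smul, smul_eq_mul]
  have h4 : fderiv ℂ (fun x => fderiv ℂ g x (Complex.I • v)) p (Complex.I • v) =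
      -fderiv ℂ (fun x => fderiv ℂ g x v) p v := by
    have hq : DifferentiableAt ℂ (fun x => fderiv ℂ g x v) p := by
      have := ((hg.fderiv_right (m := 1) (by norm_num)).differentiable (by norm_num)) p
      exact this.clm_apply (differentiableAt_const v)
    rw [h3, fderiv_const_mul hq, map_smul]
    simp only [ContinuousLinearMap.smul_apply, smul_eq_mul]
    rw [← mul_assoc, Complex.I_mul_I]
    ring
  unfold lev
  rw [h2, h2, h4, map_smul, smul_eq_mul, map_mul, Complex.conj_I]
  have e9 : conj (fderiv ℂ g p v) * fderiv ℂ g p v = ((‖fderiv ℂ g p v‖ ^ 2 : ℝ) : ℂ) := by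
    rw [Complex.conj_mul']
    push_cast
    rfl
  have e10 : -Complex.I * conj (fderiv ℂ g p v) * (Complex.I * fderiv ℂ g p v) =
      conj (fderiv ℂ g p v) * fderiv ℂ g p v := by
    linear_combination (-(conj (fderiv ℂ g p v) * fderiv ℂ g p v)) * Complex.I_sq
  rw [e10, e9]
  simp only [Complex.add_re, Complex.ofReal_re, mul_neg, Complex.neg_re]
  ring

end Pool.Agent.V1171.Kob
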