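import Mathlib
import Pool.Agent.V1171.Kob.Defs

set_option autoImplicit false

open Set Metric Filter Topology ComplexConjugate

namespace Pool.Agent.V1171.Kob

variable {n : ℕ}

/-- The sum of squares. -/
noncomputable def nsq (z : Fin n → ℂ) : ℝ := ∑ i, ‖z i‖ ^ 2

/-- The equation of the tangent line at angle `θ`. -/
noncomputable def lin (i0 i1 : Fin n) (θ : ℝ) (z : Fin n → ℂ) : ℂ :=
  (Real.cos θ : ℂ) * z i0 + (Real.sin θ : ℂ) * z i1 - 1

/-- The tangent line at angle `θ`. -/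
noncomputable def par (i0 i1 : Fin n) (θ r : ℝ) (x : ℂ) : Fin n → ℂ :=
  fun i => if i = i0 then (Real.cos θ : ℂ) - r * x * Real.sin θ
    else if i = i1 then (Real.sin θ : ℂ) + r * x * Real.cos θ else 0

theorem par_i0 {i0 i1 : Fin n} (θ r : ℝ) (x : ℂ) :
    par i0 i1 θ r x i0 = (Real.cos θ : ℂ) - r * x * Real.sin θ := by simp [par]

theorem par_i1 {i0 i1 : Fin n} (h : i0 ≠ i1) (θ r : ℝ) (x : ℂ) :
    par i0 i1 θ r x i1 = (Real.sin θ : ℂ) + r * x * Real.cos θ := by simp [par, h.symm]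

theorem lin_par {i0 i1 : Fin n} (h : i0 ≠ i1) (θ θ' r : ℝ) (x : ℂ) :
    lin i0 i1 θ' (par i0 i1 θ r x) =
      (Real.cos (θ' - θ) : ℂ) + r * x * Real.sin (θ' - θ) - 1 := by
  unfold lin
  rw [par_i0, par_i1 h, Real.cos_sub, Real.sin_sub]
  push_cast
  ring

theorem nsq_par {i0 i1 : Fin n} (h : i0 ≠ i1) (θ r : ℝ) (x : ℂ) :
    nsq (par i0 i1 θ r x) = 1 + r ^ 2 * ‖x‖ ^ 2 := by
  unfold nsq
  have h1 : ∑ i, ‖par i0 i1 θ r x i‖ ^ 2 = ∑ i ∈ ({i0, i1} : Finset (Fin n)),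
      ‖par i0 i1 θ r x i‖ ^ 2 := by
    symm
    apply Finset.sum_subset (Finset.subset_univ _)
    intro i _ hi
    simp only [Finset.mem_insert, Finset.mem_singleton, not_or] at hi
    simp [par, hi.1, hi.2]
  rw [h1, Finset.sum_pair h, par_i0, par_i1 h, ← Complex.normSq_eq_norm_sq,
    ← Complex.normSq_eq_norm_sq, ← Complex.normSq_eq_norm_sq, Complex.normSq_apply,
    Complex.normSq_apply, Complex.normSq_apply]
  simp only [Complex.sub_re, Complex.sub_im, Complex.add_re, Complex.add_im, Complex.mul_re,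
    Complex.mul_im, Complex.ofReal_re, Complex.ofReal_im]
  have := Real.sin_sq_add_cos_sq θ
  have h2 : Real.sin θ ^ 2 = 1 - Real.cos θ ^ 2 := by linarith
  ring_nf
  rw [h2]
  ring

theorem nsq_nonneg (z : Fin n → ℂ) : 0 ≤ nsq z := Finset.sum_nonneg (fun i _ => by positivity)

theorem norm_sq_le_nsq (z : Fin n → ℂ) : ‖z‖ ^ 2 ≤ nsq z := by
  have h1 : ‖z‖ ≤ √(nsq z) := by
    rw [pi_norm_le_iff_of_nonneg (Real.sqrt_nonneg _)]
    intro i
    apply Real.le_sqrt_of_sq_le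
    exact Finset.single_le_sum (f := fun i => ‖z i‖ ^ 2) (fun i _ => by positivity)
      (Finset.mem_univ i)
  calc ‖z‖ ^ 2 ≤ √(nsq z) ^ 2 := pow_le_pow_left₀ (norm_nonneg _) h1 2
    _ = nsq z := Real.sq_sqrt (nsq_nonneg z)

theorem two_coord {i0 i1 : Fin n} (h : i0 ≠ i1) (z : Fin n → ℂ) :
    ‖z i0‖ ^ 2 + ‖z i1‖ ^ 2 ≤ nsq z := by
  unfold nsq
  rw [← Finset.sum_pair (f := fun i => ‖z i‖ ^ 2) h]
  apply Finset.sum_le_sum_of_subset_of_nonneg (Finset.subset_univ _)
  intro i _ _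
  positivity

/-- Two lines meet only outside a ball. -/
theorem lines_meet {i0 i1 : Fin n} (h : i0 ≠ i1) {z : Fin n → ℂ} {R a b : ℝ} (hR : 0 ≤ R)
    (hz : nsq z ≤ R ^ 2) (ha : lin i0 i1 a z = 0) (hb : lin i0 i1 b z = 0) :
    1 ≤ |Real.cos ((a - b) / 2)| * R := by
  set φ : ℝ := (a + b) / 2 with hφ
  set δ : ℝ := (a - b) / 2 with hδ
  have e1 : Real.cos a + Real.cos b = 2 * Real.cos φ * Real.cos δ := Real.cos_add_cos a b
  have e2 : Real.sin a + Real.sin b = 2 * Real.sin φ * Real.cos δ := by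
    have := Real.sin_add_sin a b
    rw [this]
  have h1 : (Real.cos δ : ℂ) * ((Real.cos φ : ℂ) * z i0 + (Real.sin φ : ℂ) * z i1) = 1 := by
    unfold lin at ha hb
    have e1' : (Real.cos a : ℂ) + Real.cos b = 2 * Real.cos φ * Real.cos δ := by exact_mod_cast e1
    have e2' : (Real.sin a : ℂ) + Real.sin b = 2 * Real.sin φ * Real.cos δ := by exact_mod_cast e2
    linear_combination (1 / 2 : ℂ) * ha + (1 / 2 : ℂ) * hb - (z i0 / 2) * e1' - (z i1 / 2) * e2'
  have h2 : ‖(Real.cos φ : ℂ) * z i0 + (Real.sin φ : ℂ) * z i1‖ ≤ R := by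
    have h3 : ‖(Real.cos φ : ℂ) * z i0 + (Real.sin φ : ℂ) * z i1‖ ≤
        |Real.cos φ| * ‖z i0‖ + |Real.sin φ| * ‖z i1‖ := by
      refine (norm_add_le _ _).trans (le_of_eq ?_)
      rw [norm_mul, norm_mul, Complex.norm_real, Complex.norm_real, Real.norm_eq_abs,
        Real.norm_eq_abs]
    refine h3.trans ?_
    have h4 : (|Real.cos φ| * ‖z i0‖ + |Real.sin φ| * ‖z i1‖) ^ 2 ≤ R ^ 2 := by
      have h5 := two_coord h z
      have h6 : |Real.cos φ| ^ 2 + |Real.sin φ| ^ 2 = 1 := by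
        rw [sq_abs, sq_abs]; linarith [Real.sin_sq_add_cos_sq φ]
      nlinarith [sq_nonneg (|Real.cos φ| * ‖z i1‖ - |Real.sin φ| * ‖z i0‖)]
    exact abs_le_of_sq_le_sq' h4 hR |>.2
  have h3 := congrArg norm h1
  rw [norm_mul, Complex.norm_real, Real.norm_eq_abs, norm_one] at h3
  rw [← h3]
  exact mul_le_mul_of_nonneg_left h2 (abs_nonneg _)

theorem par_shift {i0 i1 : Fin n} (θ α r t : ℝ) (hα : Real.cos (α / 2) ≠ 0)
    (hrt : r * t = Real.tan (α / 2)) :
    par i0 i1 θ r (t : ℂ) = par i0 i1 (θ + α) r (-(t : ℂ)) := by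
  have hs : Real.sin (α / 2) = r * t * Real.cos (α / 2) := by
    rw [hrt, Real.tan_mul_cos hα]
  have e1 : Real.cos θ - r * t * Real.sin θ = Real.cos (θ + α) + r * t * Real.sin (θ + α) := by
    have h1 : (Real.cos θ - r * t * Real.sin θ) * Real.cos (α / 2) = Real.cos (θ + α / 2) := by
      rw [Real.cos_add, hs]; ring
    have h2 : (Real.cos (θ + α) + r * t * Real.sin (θ + α)) * Real.cos (α / 2) =
        Real.cos (θ + α / 2) := by
      have : θ + α / 2 = (θ + α) - α / 2 := by ring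
      rw [this, Real.cos_sub, hs]; ring
    exact mul_right_cancel₀ hα (h1.trans h2.symm)
  have e2 : Real.sin θ + r * t * Real.cos θ = Real.sin (θ + α) - r * t * Real.cos (θ + α) := by
    have h1 : (Real.sin θ + r * t * Real.cos θ) * Real.cos (α / 2) = Real.sin (θ + α / 2) := by
      rw [Real.sin_add, hs]; ring
    have h2 : (Real.sin (θ + α) - r * t * Real.cos (θ + α)) * Real.cos (α / 2) =
        Real.sin (θ + α / 2) := by
      have : θ + α / 2 = (θ + α) - α / 2 := by ring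
      rw [this, Real.sin_sub, hs]; ring
    exact mul_right_cancel₀ hα (h1.trans h2.symm)
  have e1' : (Real.cos θ : ℂ) - r * t * Real.sin θ = Real.cos (θ + α) + r * t * Real.sin (θ + α) := by
    exact_mod_cast e1
  have e2' : (Real.sin θ : ℂ) + r * t * Real.cos θ = Real.sin (θ + α) - r * t * Real.cos (θ + α) := by
    exact_mod_cast e2
  funext i
  unfold par
  split_ifs
  · linear_combination e1'
  · linear_combination e2'
  · rfl

theorem par_differentiable (i0 i1 : Fin n) (θ r : ℝ) : Differentiable ℂ (par i0 i1 θ r) := by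
  rw [differentiable_pi]
  intro i
  unfold par
  split_ifs <;> fun_prop

end Pool.Agent.V1171.Kob
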