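import Mathlib
import Pool.Agent.V1171.Kob.Lines
import Pool.Agent.Helper114.MontelSol

set_option autoImplicit false

open Set Metric Filter Topology ComplexConjugate

namespace Pool.Agent.V1171.Kob

variable {n : ℕ}

theorem moebius_lt {a x : ℂ} (ha : ‖a‖ < 1) (hx : ‖x‖ < 1) :
    1 + conj a * x ≠ 0 ∧ ‖(x + a) / (1 + conj a * x)‖ < 1 := by
  have hne : 1 + conj a * x ≠ 0 := by
    intro h
    have h1 : conj a * x = -1 := by linear_combination h
    have h2 := congrArg norm h1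
    rw [norm_mul, RCLike.norm_conj, norm_neg, norm_one] at h2
    have := mul_lt_one_of_nonneg_of_lt_one_left (norm_nonneg a) ha hx.le
    linarith
  refine ⟨hne, ?_⟩
  rw [norm_div, div_lt_one (norm_pos_iff.mpr hne)]
  have key : ‖1 + conj a * x‖ ^ 2 - ‖x + a‖ ^ 2 = (1 - ‖a‖ ^ 2) * (1 - ‖x‖ ^ 2) := by
    rw [← Complex.normSq_eq_norm_sq, ← Complex.normSq_eq_norm_sq, ← Complex.normSq_eq_norm_sq,
      ← Complex.normSq_eq_norm_sq, Complex.normSq_apply, Complex.normSq_apply,
      Complex.normSq_apply, Complex.normSq_apply]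
    simp only [Complex.add_re, Complex.add_im, Complex.mul_re, Complex.mul_im, Complex.conj_re,
      Complex.conj_im, Complex.one_re, Complex.one_im]
    ring
  have hpos : 0 < (1 - ‖a‖ ^ 2) * (1 - ‖x‖ ^ 2) := by
    have := norm_nonneg a
    have := norm_nonneg x
    apply mul_pos <;> nlinarith
  have : ‖x + a‖ ^ 2 < ‖1 + conj a * x‖ ^ 2 := by linarith
  exact lt_of_pow_lt_pow_left₀ 2 (norm_nonneg _) this

theorem poincare_arg_lt {a b : ℂ} (ha : ‖a‖ < 1) (hb : ‖b‖ < 1) :
    ‖(a - b) / (1 - conj a * b)‖ < 1 := by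
  have h := (moebius_lt (a := -a) (x := b) (by simpa using ha) hb).2
  rw [map_neg] at h
  have e : (a - b) / (1 - conj a * b) = -((b + -a) / (1 + -conj a * b)) := by
    rw [← neg_div]
    congr 1
    · ring
    · ring
  rw [e, norm_neg]
  exact h

theorem poincare_nonneg {a b : ℂ} (ha : ‖a‖ < 1) (hb : ‖b‖ < 1) : 0 ≤ poincare a b := by
  unfold poincare
  have h1 := poincare_arg_lt ha hb
  have h2 := norm_nonneg ((a - b) / (1 - conj a * b))
  exact Real.artanh_nonneg h2

theorem chain_length_nonneg {Ω : Set (Fin n → ℂ)} {m : ℕ} {z w : Fin n → ℂ} {L : ℝ}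
    (h : IsChain Ω m z w L) : 0 ≤ L := by
  obtain ⟨p, f, a, b, -, -, -, hj, rfl⟩ := h
  apply Finset.sum_nonneg
  intro j hjm
  obtain ⟨-, -, ha, hb, -, -⟩ := hj j (Finset.mem_range.mp hjm)
  exact poincare_nonneg (mem_ball_zero_iff.mp ha) (mem_ball_zero_iff.mp hb)

/-- Normalised chains: each disc starts at the origin. -/
theorem normalise {Ω : Set (Fin n → ℂ)} {m : ℕ} {z w : Fin n → ℂ} {L M : ℝ}
    (h : IsChain Ω m z w L) (hLM : L ≤ M) :
    ∃ (p : ℕ → Fin n → ℂ) (g : ℕ → ℂ → Fin n → ℂ) (t : ℕ → ℂ), p 0 = z ∧ p m = w ∧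
      ∀ j < m, DifferentiableOn ℂ (g j) (ball 0 1) ∧ (∀ x ∈ ball (0 : ℂ) 1, g j x ∈ Ω) ∧
        ‖t j‖ ≤ Real.tanh M ∧ g j 0 = p j ∧ g j (t j) = p (j + 1) := by
  obtain ⟨p, f, a, b, h0, hm, -, hj, rfl⟩ := h
  refine ⟨p, fun j x => f j ((x + a j) / (1 + conj (a j) * x)),
    fun j => (b j - a j) / (1 - conj (a j) * b j), h0, hm, ?_⟩
  intro j hjm
  obtain ⟨hd, hmaps, ha, hb, hfa, hfb⟩ := hj j hjm
  rw [mem_ball_zero_iff] at ha hb
  refine ⟨?_, ?_, ?_, ?_, ?_⟩
  · apply hd.comp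
    · intro x hx
      rw [mem_ball_zero_iff] at hx
      apply DifferentiableAt.differentiableWithinAt
      have hne := (moebius_lt ha hx).1
      exact (differentiableAt_id.add_const _).div
        ((differentiableAt_const _).add ((differentiableAt_const _).mul differentiableAt_id)) hne
    · intro x hx
      rw [mem_ball_zero_iff] at hx ⊢
      exact (moebius_lt ha hx).2
  · intro x hx
    rw [mem_ball_zero_iff] at hx
    exact hmaps _ (mem_ball_zero_iff.mpr (moebius_lt ha hx).2)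
  · have h1 : poincare (a j) (b j) ≤ M := by
      refine le_trans ?_ hLM
      apply Finset.single_le_sum (f := fun j => poincare (a j) (b j)) _ (Finset.mem_range.mpr hjm)
      intro i hi
      obtain ⟨-, -, ha, hb, -, -⟩ := hj i (Finset.mem_range.mp hi)
      exact poincare_nonneg (mem_ball_zero_iff.mp ha) (mem_ball_zero_iff.mp hb)
    have h2 : ‖(b j - a j) / (1 - conj (a j) * b j)‖ = ‖(a j - b j) / (1 - conj (a j) * b j)‖ := by
      rw [norm_div, norm_div, norm_sub_rev]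
    rw [h2]
    have h3 := poincare_arg_lt ha hb
    have h4 := norm_nonneg ((a j - b j) / (1 - conj (a j) * b j))
    have h5 : Real.tanh M ∈ Ioo (-1 : ℝ) 1 := Real.tanh_bijOn.mapsTo (mem_univ M)
    rw [← Real.artanh_le_artanh_iff ⟨by linarith, h3⟩ h5, Real.artanh_tanh]
    exact h1
  · show f j ((0 + a j) / (1 + conj (a j) * 0)) = p j
    rw [zero_add, mul_zero, add_zero, div_one, hfa]
  · show f j (((b j - a j) / (1 - conj (a j) * b j) + a j) /
      (1 + conj (a j) * ((b j - a j) / (1 - conj (a j) * b j)))) = p (j + 1)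
    rw [← hfb]
    congr 1
    have hne : 1 - conj (a j) * b j ≠ 0 := by
      have := (moebius_lt (a := -a j) (x := b j) (by simpa using ha) hb).1
      rw [map_neg] at this
      intro h
      apply this
      linear_combination h
    have hne2 : 1 - conj (a j) * a j ≠ 0 := by
      have := (moebius_lt (a := -a j) (x := a j) (by simpa using ha) ha).1
      rw [map_neg] at this
      intro h
      apply this
      linear_combination h
    have e1 : (b j - a j) / (1 - conj (a j) * b j) + a j =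
        b j * (1 - conj (a j) * a j) / (1 - conj (a j) * b j) := by
      rw [eq_div_iff hne, add_mul, div_mul_cancel₀ _ hne]
      ring
    have e2 : 1 + conj (a j) * ((b j - a j) / (1 - conj (a j) * b j)) =
        (1 - conj (a j) * a j) / (1 - conj (a j) * b j) := by
      rw [eq_div_iff hne, add_mul, one_mul, mul_assoc, div_mul_cancel₀ _ hne]
      ring
    rw [e1, e2, div_div_div_cancel_right₀ hne, mul_div_assoc, div_self hne2, mul_one]

/-- Limits of normalised chains. -/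
theorem limit_chain {K : ℕ} {T R : ℝ} (hT : T < 1) {Q : (Fin n → ℂ) → ℂ} (hQ : Continuous Q)
    {p : ℕ → ℕ → Fin n → ℂ} {g : ℕ → ℕ → ℂ → Fin n → ℂ} {t : ℕ → ℕ → ℂ} {z w : Fin n → ℂ}
    (h0 : ∀ m, p m 0 = z) (hK : ∀ m, p m K = w)
    (hd : ∀ m, ∀ j < K, DifferentiableOn ℂ (g m j) (ball 0 1))
    (hR : ∀ m, ∀ j < K, ∀ x ∈ ball (0 : ℂ) 1, nsq (g m j x) ≤ R ^ 2) (hR0 : 0 ≤ R)
    (hQ0 : ∀ j < K, ∀ x ∈ ball (0 : ℂ) 1, Tendsto (fun m => Q (g m j x)) atTop (𝓝 0))
    (ht : ∀ m, ∀ j < K, ‖t m j‖ ≤ T) (hg0 : ∀ m, ∀ j < K, g m j 0 = p m j)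
    (hgt : ∀ m, ∀ j < K, g m j (t m j) = p m (j + 1)) :
    ∃ (P : ℕ → Fin n → ℂ) (G : ℕ → ℂ → Fin n → ℂ) (s : ℕ → ℂ), P 0 = z ∧ P K = w ∧
      ∀ j < K, DifferentiableOn ℂ (G j) (ball 0 1) ∧
        (∀ x ∈ ball (0 : ℂ) 1, nsq (G j x) ≤ R ^ 2 ∧ Q (G j x) = 0) ∧ s j ∈ ball (0 : ℂ) 1 ∧
        G j 0 = P j ∧ G j (s j) = P (j + 1) := by
  set 𝒰 : Ultrafilter ℕ := hyperfilter ℕ with h𝒰
  have h𝒰t : ((𝒰 : Ultrafilter ℕ) : Filter ℕ) ≤ atTop := by
    rw [← Nat.cofinite_eq_atTop]
    exact hyperfilter_le_cofinite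
  -- coordinates
  have hcoord : ∀ m, ∀ j < K, ∀ i, ∀ x ∈ ball (0 : ℂ) 1, ‖g m j x i‖ ≤ R := by
    intro m j hj i x hx
    have h1 := hR m j hj x hx
    have h2 : ‖g m j x i‖ ^ 2 ≤ R ^ 2 :=
      le_trans (Finset.single_le_sum (f := fun i => ‖g m j x i‖ ^ 2) (fun i _ => by positivity)
        (Finset.mem_univ i)) h1
    exact abs_le_of_sq_le_sq' h2 hR0 |>.2
  have hmon : ∀ j i, ∃ Φ : ℂ → ℂ, j < K → DifferentiableOn ℂ Φ (ball 0 1) ∧
      TendstoLocallyUniformlyOn (fun m x => g m j x i) Φ (𝒰 : Filter ℕ) (ball 0 1) := by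
    intro j i
    by_cases hj : j < K
    · obtain ⟨Φ, h1, h2⟩ := Pool.Agent.Helper114.Montel.montel isOpen_ball
        (fun m x => g m j x i) (fun m => differentiableOn_pi.mp (hd m j hj) i) R
        (fun m x hx => hcoord m j hj i x hx) 𝒰
      exact ⟨Φ, fun _ => ⟨h1, h2⟩⟩
    · exact ⟨0, fun h => absurd h hj⟩
  choose Φ hΦ using hmon
  -- parameters
  have hpar : ∀ j, ∃ v : ℂ, j < K → ‖v‖ ≤ T ∧ Tendsto (fun m => t m j) 𝒰 (𝓝 v) := by
    intro j
    by_cases hj : j < K
    · have hcomp := isCompact_closedBall (0 : ℂ) T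
      have hle : ((𝒰.map (fun m => t m j) : Ultrafilter ℂ) : Filter ℂ) ≤ 𝓟 (closedBall 0 T) := by
        rw [le_principal_iff, Ultrafilter.coe_map, Filter.mem_map]
        refine Filter.mem_of_superset Filter.univ_mem ?_
        intro m _
        show t m j ∈ closedBall 0 T
        rw [mem_closedBall_zero_iff]
        exact ht m j hj
      obtain ⟨v, hv1, hv⟩ := hcomp.ultrafilter_le_nhds _ hle
      exact ⟨v, fun _ => ⟨mem_closedBall_zero_iff.mp hv1, hv⟩⟩
    · exact ⟨0, fun h => absurd h hj⟩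
  choose s hs using hpar
  -- points
  set G : ℕ → ℂ → Fin n → ℂ := fun j x i => Φ j i x with hG
  have hGlim : ∀ j < K, ∀ x ∈ ball (0 : ℂ) 1, Tendsto (fun m => g m j x) 𝒰 (𝓝 (G j x)) := by
    intro j hj x hx
    rw [tendsto_pi_nhds]
    intro i
    exact (hΦ j i hj).2.tendsto_at hx
  have hGs : ∀ j < K, Tendsto (fun m => p m (j + 1)) 𝒰 (𝓝 (G j (s j))) := by
    intro j hj
    have hsb : s j ∈ ball (0 : ℂ) 1 := mem_ball_zero_iff.mpr (lt_of_le_of_lt (hs j hj).1 hT)
    rw [tendsto_pi_nhds]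
    intro i
    have h1 := (hΦ j i hj).2.tendsto_comp (g := fun m => t m j)
      ((hΦ j i hj).1.continuousOn (s j) hsb) hsb (by
        rw [nhdsWithin_eq_nhds.mpr (isOpen_ball.mem_nhds hsb)]
        exact (hs j hj).2)
    refine h1.congr (fun m => ?_)
    rw [hgt m j hj]
  have h00 : (0 : ℂ) ∈ ball (0 : ℂ) 1 := mem_ball_self one_pos
  refine ⟨fun j => if j = 0 then z else G (j - 1) (s (j - 1)), G, s, by simp, ?_, ?_⟩
  · rcases Nat.eq_zero_or_pos K with h | h
    · subst h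
      have h1 := h0 0
      have h2 := hK 0
      simp only [if_true]
      rw [← h1, ← h2]
    · obtain ⟨k, hk⟩ := Nat.exists_eq_succ_of_ne_zero h.ne'
      subst hk
      simp only [Nat.succ_ne_zero, if_false, Nat.succ_sub_one]
      have h1 := hGs k (Nat.lt_succ_self k)
      have h2 : Tendsto (fun m => p m (k + 1)) 𝒰 (𝓝 w) := by
        have : (fun m => p m (k + 1)) = fun _ => w := funext (fun m => hK m)
        rw [this]
        exact tendsto_const_nhds
      exact tendsto_nhds_unique h1 h2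
  · intro j hj
    refine ⟨?_, ?_, mem_ball_zero_iff.mpr (lt_of_le_of_lt (hs j hj).1 hT), ?_, ?_⟩
    · rw [differentiableOn_pi]
      intro i
      exact (hΦ j i hj).1
    · intro x hx
      have h1 := hGlim j hj x hx
      constructor
      · have hc : Continuous (fun z : Fin n → ℂ => nsq z) := by unfold nsq; fun_prop
        exact le_of_tendsto ((hc.tendsto _).comp h1) (Eventually.of_forall fun m => hR m j hj x hx)
      · exact tendsto_nhds_unique ((hQ.tendsto _).comp h1) ((hQ0 j hj x hx).mono_left h𝒰t)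
    · have h1 := hGlim j hj 0 h00
      by_cases h : j = 0
      · subst h
        simp only [if_true]
        have h2 : Tendsto (fun m => g m 0 0) 𝒰 (𝓝 z) := by
          have : (fun m => g m 0 0) = fun _ => z := funext (fun m => by rw [hg0 m 0 hj, h0 m])
          rw [this]
          exact tendsto_const_nhds
        exact tendsto_nhds_unique h1 h2
      · simp only [h, if_false]
        obtain ⟨k, hk⟩ := Nat.exists_eq_succ_of_ne_zero h
        subst hk
        simp only [Nat.succ_sub_one]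
        have h2 := hGs k (by omega)
        refine tendsto_nhds_unique h1 (h2.congr (fun m => ?_))
        rw [hg0 m (k + 1) hj]
    · simp

/-- A disc in a union of hypersurfaces `l_i = 0` lies in one of them. -/
theorem one_factor {N : ℕ} {l : ℕ → (Fin n → ℂ) → ℂ} (hl : ∀ i, Differentiable ℂ (l i))
    {G : ℂ → Fin n → ℂ} (hG : DifferentiableOn ℂ G (ball 0 1))
    (h : ∀ x ∈ ball (0 : ℂ) 1, ∏ i ∈ Finset.range N, l i (G x) = 0) :
    ∃ i < N, ∀ x ∈ ball (0 : ℂ) 1, l i (G x) = 0 := by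
  by_contra hcon
  push Not at hcon
  have h00 : (0 : ℂ) ∈ ball (0 : ℂ) 1 := mem_ball_self one_pos
  have han : ∀ i, AnalyticOnNhd ℂ (fun x => l i (G x)) (ball 0 1) := by
    intro i
    apply DifferentiableOn.analyticOnNhd _ isOpen_ball
    exact (hl i).comp_differentiableOn hG
  have hne : ∀ i < N, ∀ᶠ x in 𝓝[≠] (0 : ℂ), l i (G x) ≠ 0 := by
    intro i hi
    rcases (han i 0 h00).eventually_eq_zero_or_eventually_ne_zero with h1 | h1
    · exfalso
      obtain ⟨x, hx, hx0⟩ := hcon i hi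
      exact hx0 ((han i).eqOn_zero_of_preconnected_of_eventuallyEq_zero
        (convex_ball 0 1).isPreconnected h00 h1 hx)
    · exact h1
  have hall : ∀ᶠ x in 𝓝[≠] (0 : ℂ), ∀ i ∈ Finset.range N, l i (G x) ≠ 0 := by
    rw [Filter.eventually_all_finset]
    intro i hi
    exact hne i (Finset.mem_range.mp hi)
  have hb : ∀ᶠ x in 𝓝[≠] (0 : ℂ), x ∈ ball (0 : ℂ) 1 :=
    mem_nhdsWithin_of_mem_nhds (isOpen_ball.mem_nhds h00)
  obtain ⟨x, hx1, hx2⟩ := (hall.and hb).exists
  exact (Finset.prod_ne_zero_iff.mpr hx1) (h x hx2)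

end Pool.Agent.V1171.Kob
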