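import Mathlib

set_option autoImplicit false

open Set Metric Filter Topology MeasureTheory

namespace Pool.Agent.V1171.Kob

/-- After a small linear perturbation almost all levels of a `C²` function are regular on a compact
set. -/
theorem regular_level {E : Type*} [NormedAddCommGroup E] [NormedSpace ℝ E] [FiniteDimensional ℝ E]
    {ρ : E → ℝ} (hρ : ContDiff ℝ 2 ρ) {K : Set E} (hK : IsCompact K) {ε s t : ℝ} (hε : 0 < ε)
    (hst : s < t) :
    ∃ a : E →L[ℝ] ℝ, ‖a‖ < ε ∧ ∃ c ∈ Ioo s t, ∀ x ∈ K, ρ x - a x = c → fderiv ℝ ρ x - a ≠ 0 := by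
  classical
  let _ : MeasurableSpace E := borel E
  have : BorelSpace E := ⟨rfl⟩
  set μ : Measure E := Measure.addHaar with hμ
  have hfin : Module.finrank ℝ (E →L[ℝ] ℝ) = Module.finrank ℝ E := by
    have h1 : Module.finrank ℝ (E →L[ℝ] ℝ) = Module.finrank ℝ (E →ₗ[ℝ] ℝ) :=
      (LinearMap.toContinuousLinearMap (𝕜 := ℝ) (E := E) (F' := ℝ)).finrank_eq.symm
    rw [h1]
    exact Subspace.dual_finrank_eq
  set φ : (E →L[ℝ] ℝ) ≃L[ℝ] E := ContinuousLinearEquiv.ofFinrankEq hfin with hφ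
  have hρ' : ContDiff ℝ 1 (fderiv ℝ ρ) := hρ.fderiv_right (by norm_num)
  set f : E → E := fun x => φ (fderiv ℝ ρ x) with hf
  set f' : E → E →L[ℝ] E := fun x => (φ : (E →L[ℝ] ℝ) →L[ℝ] E).comp (fderiv ℝ (fderiv ℝ ρ) x) with hf'
  have hder : ∀ x, HasFDerivAt f (f' x) x := by
    intro x
    have h1 : HasFDerivAt (fderiv ℝ ρ) (fderiv ℝ (fderiv ℝ ρ) x) x :=
      ((hρ'.differentiable (by norm_num)) x).hasFDerivAt
    exact (φ : (E →L[ℝ] ℝ) →L[ℝ] E).hasFDerivAt.comp x h1
  set S : Set E := {x | (f' x).det = 0} with hS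
  have hzero : μ (f '' S) = 0 :=
    addHaar_image_eq_zero_of_det_fderivWithin_eq_zero μ (fun x _ => (hder x).hasFDerivWithinAt)
      (fun x hx => hx)
  -- a small value outside
  set U : Set E := φ.symm ⁻¹' (ball 0 ε) with hU
  have hUo : IsOpen U := isOpen_ball.preimage φ.symm.continuous
  have hUne : U.Nonempty := ⟨0, by simp [hU, hε]⟩
  obtain ⟨b, hbU, hbS⟩ : ∃ b ∈ U, b ∉ f '' S := by
    by_contra h
    push Not at h
    have h1 : μ U ≤ μ (f '' S) := measure_mono (fun b hb => h b hb)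
    rw [hzero] at h1
    exact (hUo.measure_pos μ hUne).ne' (le_antisymm h1 bot_le)
  set a : E →L[ℝ] ℝ := φ.symm b with ha
  have hanorm : ‖a‖ < ε := by simpa [hU] using hbU
  refine ⟨a, hanorm, ?_⟩
  -- the critical set
  set C : Set E := K ∩ {x | fderiv ℝ ρ x = a} with hC
  have hCc : IsCompact C :=
    hK.inter_right (isClosed_eq hρ'.continuous continuous_const)
  have hfb : ∀ x ∈ C, f x = b := by
    intro x hx
    have : fderiv ℝ ρ x = a := hx.2
    simp only [hf, this, ha]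
    exact φ.apply_symm_apply b
  have hiso : ∀ x ∈ C, ∀ᶠ y in 𝓝[≠] x, y ∉ C := by
    intro x hx
    have hdet : (f' x).det ≠ 0 := fun h0 => hbS ⟨x, h0, hfb x hx⟩
    have hanti : ∃ k, AntilipschitzWith k (f' x) := by
      have hinj : LinearMap.ker ((f' x : E →L[ℝ] E) : E →ₗ[ℝ] E) = ⊥ := by
        by_contra h
        exact hdet (LinearMap.det_eq_zero_iff_ker_ne_bot.mpr h)
      obtain ⟨k, -, hk⟩ := ((f' x : E →L[ℝ] E) : E →ₗ[ℝ] E).exists_antilipschitzWith hinj
      exact ⟨k, hk⟩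
    obtain ⟨k, hk⟩ := hanti
    have h1 : ∀ᶠ y in 𝓝[≠] x, f y ≠ b := (hder x).eventually_ne ⟨k, hk⟩
    filter_upwards [h1] with y hy hyC
    exact hy (hfb y hyC)
  have hCfin : C.Finite := by
    by_contra hinf
    have hinf' : C.Infinite := hinf
    obtain ⟨x, hx, hacc⟩ := hinf'.exists_accPt_of_subset_isCompact hCc (Subset.refl C)
    rw [accPt_iff_frequently] at hacc
    apply hacc
    have := hiso x hx
    rw [eventually_nhdsWithin_iff] at this
    filter_upwards [this] with y hy h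
    exact hy h.1 h.2
  -- choose the level
  have himg : ((fun x => ρ x - a x) '' C).Finite := hCfin.image _
  have hex : ∃ c ∈ Ioo s t, c ∉ (fun x => ρ x - a x) '' C := by
    by_contra h
    push Not at h
    exact (Ioo_infinite hst) (himg.subset h)
  obtain ⟨c, hc, hcn⟩ := hex
  refine ⟨c, hc, fun x hxK hxc h0 => hcn ⟨x, ⟨hxK, ?_⟩, hxc⟩⟩
  exact sub_eq_zero.mp h0

end Pool.Agent.V1171.Kob
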