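import Mathlib
import Pool.Agent.V1171.Kob.Limit
import Pool.Agent.V1171.Kob.Levi
import Pool.Agent.V1171.Kob.Comp
import Pool.Agent.V1171.Kob.Regular

set_option autoImplicit false

open Set Metric Filter Topology ComplexConjugate

namespace Pool.Agent.V1171.Kob

variable {n : ℕ}

theorem lev_sum {ι : Type*} (s : Finset ι) {f : ι → (Fin n → ℂ) → ℝ}
    (hf : ∀ i, ContDiff ℝ 2 (f i)) (p v : Fin n → ℂ) :
    lev (fun z => ∑ i ∈ s, f i z) p v = ∑ i ∈ s, lev (f i) p v := by
  classical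
  induction s using Finset.induction_on with
  | empty =>
    simp only [Finset.sum_empty]
    have := lev_linear (n := n) 0 p v
    simpa using this
  | insert i s hi ih =>
    have e : (fun z => ∑ j ∈ insert i s, f j z) = fun z => f i z + ∑ j ∈ s, f j z := by
      funext z
      exact Finset.sum_insert hi
    rw [e, lev_add (hf i) (ContDiff.sum fun j _ => hf j), ih, Finset.sum_insert hi]

theorem contDiff_nsq : ContDiff ℝ 2 (nsq : (Fin n → ℂ) → ℝ) := by
  unfold nsq
  apply ContDiff.sum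
  intro i _
  exact (contDiff_apply ℝ ℂ i).norm_sq ℝ

theorem lev_nsq (p v : Fin n → ℂ) : lev nsq p v = 4 * nsq v := by
  have h1 : (nsq : (Fin n → ℂ) → ℝ) = fun z => ∑ i, (fun z : Fin n → ℂ => ‖z i‖ ^ 2) z := rfl
  rw [h1, lev_sum Finset.univ (fun i => (contDiff_apply ℝ ℂ i).norm_sq ℝ), Finset.mul_sum]
  apply Finset.sum_congr rfl
  intro i _
  have h2 : ContDiff ℂ 3 (fun z : Fin n → ℂ => z i) := contDiff_apply ℂ ℂ i
  rw [lev_normSq h2]
  have h3 : fderiv ℂ (fun z : Fin n → ℂ => z i) p = ContinuousLinearMap.proj i :=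
    (ContinuousLinearMap.proj (R := ℂ) (φ := fun _ : Fin n => ℂ) i).fderiv
  rw [h3]
  rfl

/-- The angle. -/
noncomputable def al (K : ℕ) : ℝ := Real.pi / (K + 3)

theorem al_pos (K : ℕ) : 0 < al K := by unfold al; positivity

theorem mul_al_lt {K d : ℕ} (hd : d ≤ K + 1) : (d : ℝ) * al K < Real.pi := by
  unfold al
  have h1 : (d : ℝ) ≤ K + 1 := by exact_mod_cast hd
  have h2 : (0 : ℝ) < K + 3 := by positivity
  rw [mul_div_assoc', div_lt_iff₀ h2]
  nlinarith [Real.pi_pos]

theorem al_le (K : ℕ) : al K ≤ Real.pi / 3 := by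
  unfold al
  apply div_le_div_of_nonneg_left Real.pi_pos.le (by norm_num)
  have : (0 : ℝ) ≤ K := by positivity
  linarith

theorem cos_al_pos (K : ℕ) : 0 < Real.cos (al K) := by
  apply Real.cos_pos_of_mem_Ioo
  have h1 := al_pos K
  have h2 := al_le K
  constructor <;> linarith [Real.pi_pos]

theorem cos_half_pos (K : ℕ) : 0 < Real.cos (al K / 2) := by
  apply Real.cos_pos_of_mem_Ioo
  have h1 := al_pos K
  have h2 := al_le K
  constructor <;> linarith [Real.pi_pos]

theorem tan_half_pos (K : ℕ) : 0 < Real.tan (al K / 2) := by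
  apply Real.tan_pos_of_pos_of_lt_pi_div_two
  · have h1 := al_pos K; linarith
  · have h2 := al_le K; linarith [Real.pi_pos]

theorem dist_zero {K d : ℕ} (hd : d ≤ K)
    (h : Real.cos (d * al K) - Real.tan (al K / 2) * Real.sin (d * al K) = 1) : d = 0 := by
  by_contra h0
  have hd1 : 1 ≤ d := Nat.one_le_iff_ne_zero.mpr h0
  have h1 : 0 < (d : ℝ) * al K := by
    have : (0 : ℝ) < d := by exact_mod_cast hd1
    have := al_pos K
    positivity
  have h2 := mul_al_lt (K := K) (d := d) (by omega)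
  have h3 : 0 < Real.sin (d * al K) := Real.sin_pos_of_pos_of_lt_pi h1 h2
  have h4 := Real.cos_le_one (d * al K)
  have h5 := tan_half_pos K
  have h6 : 0 < Real.tan (al K / 2) * Real.sin (d * al K) := by positivity
  linarith

/-- `1 / cos² (α / 2)`. -/
noncomputable def cA (K : ℕ) : ℝ := 1 + Real.tan (al K / 2) ^ 2

/-- `1 / cos² α`. -/
noncomputable def cB (K : ℕ) : ℝ := 1 / Real.cos (al K) ^ 2

theorem cA_lt_cB (K : ℕ) : cA K < cB K := by
  unfold cA cB
  have h1 := cos_al_pos K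
  have h2 := cos_half_pos K
  have e : 1 + Real.tan (al K / 2) ^ 2 = 1 / Real.cos (al K / 2) ^ 2 := by
    have := Real.inv_one_add_tan_sq h2.ne'
    rw [← this, one_div, inv_inv]
  rw [e]
  apply one_div_lt_one_div_of_lt (by positivity)
  have h3 : Real.cos (al K) < Real.cos (al K / 2) := by
    apply Real.cos_lt_cos_of_nonneg_of_le_pi
    · have := al_pos K; linarith
    · have := al_le K; linarith [Real.pi_pos]
    · have := al_pos K; linarith
  exact pow_lt_pow_left₀ h3 h1.le (by norm_num)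

/-- The product of the equations of the lines. -/
noncomputable def PP (K : ℕ) (i0 i1 : Fin n) (z : Fin n → ℂ) : ℂ :=
  ∏ i ∈ Finset.range (K + 1), lin i0 i1 (i * al K) z

theorem lin_contDiff (i0 i1 : Fin n) (θ : ℝ) : ContDiff ℂ 3 (lin i0 i1 θ) := by
  unfold lin
  exact ((contDiff_const.mul (contDiff_apply ℂ ℂ i0)).add
    (contDiff_const.mul (contDiff_apply ℂ ℂ i1))).sub contDiff_const

theorem PP_contDiff (K : ℕ) (i0 i1 : Fin n) : ContDiff ℂ 3 (PP K i0 i1) := by
  unfold PP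
  apply contDiff_prod
  intro i _
  exact lin_contDiff i0 i1 _

/-- The properties of the domains. -/
structure Dom (K : ℕ) (i0 i1 : Fin n) (r τ δ : ℝ) (m : ℕ) (Ω : Set (Fin n → ℂ)) : Prop where
  spc : StronglyPseudoconvex Ω
  bd : ∀ z ∈ Ω, nsq z ≤ cA K + 5 * δ
  small : ∀ z ∈ Ω, m * ‖PP K i0 i1 z‖ ^ 2 ≤ cB K
  disc : ∀ j ≤ K, ∀ x ∈ ball (0 : ℂ) 1, par i0 i1 (j * al K) r x ∈ Ω

theorem exists_dom (K : ℕ) {i0 i1 : Fin n} (hi : i0 ≠ i1) {r τ δ : ℝ} (hδ : δ = (cB K - cA K) / 8)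
    (hr : 0 < r) (hr2 : r ^ 2 = Real.tan (al K / 2) ^ 2 + δ) (hrτ : r * τ = Real.tan (al K / 2))
    (hτ : 0 < τ) (hτ1 : τ < 1) (m : ℕ) : ∃ Ω : Set (Fin n → ℂ), Dom K i0 i1 r τ δ m Ω := by
  have hAB := cA_lt_cB K
  have hδ0 : 0 < δ := by rw [hδ]; linarith
  have hB : cB K = cA K + 8 * δ := by rw [hδ]; ring
  have hA1 : 1 ≤ cA K := by unfold cA; nlinarith [sq_nonneg (Real.tan (al K / 2))]
  set ρ0 : (Fin n → ℂ) → ℝ := fun z => nsq z + m * ‖PP K i0 i1 z‖ ^ 2 with hρ0
  have hP2 : ContDiff ℝ 2 (fun z : Fin n → ℂ => ‖PP K i0 i1 z‖ ^ 2) :=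
    ((((PP_contDiff K i0 i1).restrict_scalars ℝ).of_le (by norm_num)).norm_sq ℝ)
  have hρ0C : ContDiff ℝ 2 ρ0 := contDiff_nsq.add (contDiff_const.mul hP2)
  set ε : ℝ := δ / (1 + cB K) with hε
  have hB0 : 0 < 1 + cB K := by linarith
  have hε0 : 0 < ε := by positivity
  have hε1 : ε * (1 + cB K) = δ := by rw [hε]; field_simp
  have hε2 : ε < 1 := by
    rw [hε, div_lt_one hB0]
    linarith
  obtain ⟨a, ha, c, hc, hcrit⟩ := regular_level hρ0C (isCompact_closedBall (0 : Fin n → ℂ) (1 + cB K))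
    hε0 (s := cA K + 3 * δ) (t := cA K + 4 * δ) (by linarith)
  set ρ : (Fin n → ℂ) → ℝ := fun z => ρ0 z - a z with hρ
  have hρC : ContDiff ℝ 2 ρ := hρ0C.sub a.contDiff
  -- estimates
  have hnorm : ∀ z : Fin n → ℂ, ‖z‖ ≤ 1 + nsq z := by
    intro z
    have h1 := norm_sq_le_nsq z
    nlinarith [sq_nonneg (‖z‖ - 1), norm_nonneg z]
  have haz : ∀ z : Fin n → ℂ, |a z| ≤ ε * (1 + nsq z) := by
    intro z
    have h1 := a.le_opNorm z
    rw [Real.norm_eq_abs] at h1
    have h2 := hnorm z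
    have h3 := nsq_nonneg z
    calc |a z| ≤ ‖a‖ * ‖z‖ := h1
      _ ≤ ε * (1 + nsq z) := mul_le_mul ha.le h2 (norm_nonneg _) hε0.le
  have hle : ∀ z, ρ z ≤ c → nsq z ≤ cA K + 5 * δ ∧ m * ‖PP K i0 i1 z‖ ^ 2 ≤ cB K := by
    intro z hz
    have h1 := (abs_le.mp (haz z)).2
    have h2 : 0 ≤ (m : ℝ) * ‖PP K i0 i1 z‖ ^ 2 := by positivity
    have h3 : nsq z + m * ‖PP K i0 i1 z‖ ^ 2 - a z ≤ c := hz
    have h4 : nsq z * (1 - ε) ≤ (cA K + 5 * δ) * (1 - ε) := by
      have h5 : nsq z * (1 - ε) ≤ cA K + 4 * δ + ε := by nlinarith [hc.2]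
      have h6 : ε * (1 + (cA K + 5 * δ)) ≤ δ := by
        have h8 : ε * (1 + (cA K + 5 * δ)) ≤ ε * (1 + cB K) :=
          mul_le_mul_of_nonneg_left (by rw [hB]; linarith) hε0.le
        linarith
      nlinarith
    have h5 : nsq z ≤ cA K + 5 * δ := le_of_mul_le_mul_right h4 (by linarith)
    refine ⟨h5, ?_⟩
    have h6 := nsq_nonneg z
    have h7 : ε * (1 + nsq z) ≤ δ := by
      rw [← hε1]
      apply mul_le_mul_of_nonneg_left _ hε0.le
      rw [hB]; linarith
    linarith [hc.2]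
  have hreg : ∀ p, ρ p = c → fderiv ℝ ρ p ≠ 0 := by
    intro p hp
    have h1 := (hle p hp.le).1
    have h2 : p ∈ closedBall (0 : Fin n → ℂ) (1 + cB K) := by
      rw [mem_closedBall_zero_iff]
      have := hnorm p
      rw [hB]
      linarith
    have h3 := hcrit p h2 hp
    have h4 : fderiv ℝ ρ p = fderiv ℝ ρ0 p - a := by
      rw [hρ, fderiv_fun_sub ((hρ0C.differentiable (by norm_num)) p) a.differentiableAt, a.fderiv]
    rw [h4]
    exact h3
  have hLevi : ∀ p v : Fin n → ℂ, v ≠ 0 → 0 < fderiv ℝ (fderiv ℝ ρ) p v v +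
      fderiv ℝ (fderiv ℝ ρ) p (Complex.I • v) (Complex.I • v) := by
    intro p v hv
    show 0 < lev ρ p v
    have e1 : ρ = fun z => (nsq z + (m : ℝ) * ‖PP K i0 i1 z‖ ^ 2) + (-a) z := by
      funext z
      simp only [hρ, hρ0, ContinuousLinearMap.neg_apply]
      ring
    have c1 : ContDiff ℝ 2 (fun z : Fin n → ℂ => (m : ℝ) * ‖PP K i0 i1 z‖ ^ 2) :=
      contDiff_const.mul hP2
    rw [e1, lev_add (contDiff_nsq.add c1) (-a).contDiff, lev_add contDiff_nsq c1,
      lev_const_mul hP2, lev_linear, lev_nsq, lev_normSq (PP_contDiff K i0 i1)]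
    have h1 : 0 < nsq v := by
      have h2 := norm_sq_le_nsq v
      have h3 := norm_pos_iff.mpr hv
      have : 0 < ‖v‖ ^ 2 := by positivity
      linarith
    have h2 : 0 ≤ (m : ℝ) * (4 * ‖fderiv ℂ (PP K i0 i1) p v‖ ^ 2) := by positivity
    linarith
  have hbdd : Bornology.IsBounded {z | ρ z < c} := by
    rw [isBounded_iff_forall_norm_le]
    refine ⟨1 + cB K, fun z hz => ?_⟩
    have h1 := (hle z (le_of_lt hz)).1
    have := hnorm z
    rw [hB]
    linarith
  -- the discs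
  have hdisc : ∀ j ≤ K, ∀ x ∈ ball (0 : ℂ) 1, ρ (par i0 i1 (j * al K) r x) < c := by
    intro j hj x hx
    rw [mem_ball_zero_iff] at hx
    set z := par i0 i1 (j * al K) r x with hz
    have h1 : nsq z = 1 + r ^ 2 * ‖x‖ ^ 2 := nsq_par hi _ _ _
    have h2 : PP K i0 i1 z = 0 := by
      unfold PP
      apply Finset.prod_eq_zero (Finset.mem_range.mpr (Nat.lt_succ_of_le hj))
      rw [hz, lin_par hi, sub_self, Real.cos_zero, Real.sin_zero]
      simp
    have h3 : ρ z = nsq z - a z := by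
      simp only [hρ, hρ0, h2, norm_zero]
      ring
    have h4 : ‖x‖ ^ 2 ≤ 1 := by nlinarith [norm_nonneg x]
    have h5 : nsq z ≤ cA K + δ := by
      rw [h1]
      unfold cA
      have : r ^ 2 * ‖x‖ ^ 2 ≤ r ^ 2 * 1 := mul_le_mul_of_nonneg_left h4 (by positivity)
      linarith
    have h6 := (abs_le.mp (haz z)).1
    have h7 : ε * (1 + nsq z) ≤ δ := by
      rw [← hε1]
      apply mul_le_mul_of_nonneg_left _ hε0.le
      rw [hB]; linarith
    rw [h3]
    linarith [hc.1]
  set z0 := par i0 i1 ((0 : ℕ) * al K) r (-(τ : ℂ)) with hz0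
  have hτb : (τ : ℂ) ∈ ball (0 : ℂ) 1 := by
    rw [mem_ball_zero_iff, Complex.norm_real, Real.norm_of_nonneg hτ.le]
    exact hτ1
  have hτb' : -(τ : ℂ) ∈ ball (0 : ℂ) 1 := by
    rw [mem_ball_zero_iff, norm_neg, Complex.norm_real, Real.norm_of_nonneg hτ.le]
    exact hτ1
  have hz0c : ρ z0 < c := hdisc 0 (Nat.zero_le _) _ hτb'
  refine ⟨connectedComponentIn {z | ρ z < c} z0, spc_component hρC hreg hLevi hbdd hz0c, ?_, ?_, ?_⟩
  · intro z hz
    have h : z ∈ {z | ρ z < c} := connectedComponentIn_subset _ _ hz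
    exact (hle z (le_of_lt h)).1
  · intro z hz
    have h : z ∈ {z | ρ z < c} := connectedComponentIn_subset _ _ hz
    exact (hle z (le_of_lt h)).2
  · -- the discs lie in the component
    intro j
    induction j with
    | zero =>
      intro _ x hx
      have hpre : IsPreconnected (par i0 i1 ((0 : ℕ) * al K) r '' ball 0 1) :=
        (convex_ball 0 1).isPreconnected.image _ (par_differentiable i0 i1 _ r).continuous.continuousOn
      refine hpre.subset_connectedComponentIn ⟨_, hτb', rfl⟩ ?_ ⟨x, hx, rfl⟩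
      rintro _ ⟨y, hy, rfl⟩
      exact hdisc 0 (Nat.zero_le _) y hy
    | succ j ih =>
      intro hj x hx
      have hshift : par i0 i1 (((j + 1 : ℕ) : ℝ) * al K) r (-(τ : ℂ)) =
          par i0 i1 ((j : ℝ) * al K) r (τ : ℂ) := by
        rw [par_shift (j * al K) (al K) r τ (cos_half_pos K).ne' hrτ]
        congr 1
        push_cast
        ring
      have hpt := ih (by omega) (τ : ℂ) hτb
      rw [← hshift] at hpt
      have hpre : IsPreconnected (par i0 i1 (((j + 1 : ℕ) : ℝ) * al K) r '' ball 0 1) :=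
        (convex_ball 0 1).isPreconnected.image _ (par_differentiable i0 i1 _ r).continuous.continuousOn
      rw [connectedComponentIn_eq hpt]
      refine hpre.subset_connectedComponentIn ⟨_, hτb', rfl⟩ ?_ ⟨x, hx, rfl⟩
      rintro _ ⟨y, hy, rfl⟩
      exact hdisc (j + 1) hj y hy

/-- The main result. -/
theorem main (K : ℕ) (hn : 2 ≤ n) : ∃ Ω : Set (Fin n → ℂ), StronglyPseudoconvex Ω ∧
    ∃ z ∈ Ω, ∃ w ∈ Ω, ∀ L, IsChain Ω K z w L → kob Ω z w < L := by
  classical
  set i0 : Fin n := ⟨0, by omega⟩ with hi0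
  set i1 : Fin n := ⟨1, by omega⟩ with hi1
  have hi : i0 ≠ i1 := by
    intro h
    have := congrArg Fin.val h
    simp [hi0, hi1] at this
  have hAB := cA_lt_cB K
  set δ : ℝ := (cB K - cA K) / 8 with hδ
  have hδ0 : 0 < δ := by rw [hδ]; linarith
  have ht := tan_half_pos K
  set r : ℝ := √(Real.tan (al K / 2) ^ 2 + δ) with hr
  have hr0 : 0 < r := Real.sqrt_pos.mpr (by positivity)
  have hr2 : r ^ 2 = Real.tan (al K / 2) ^ 2 + δ := Real.sq_sqrt (by positivity)
  set τ : ℝ := Real.tan (al K / 2) / r with hτ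
  have hτ0 : 0 < τ := by positivity
  have hrτ : r * τ = Real.tan (al K / 2) := by rw [hτ]; field_simp
  have hτ1 : τ < 1 := by
    rw [hτ, div_lt_one hr0]
    have : Real.tan (al K / 2) ^ 2 < r ^ 2 := by rw [hr2]; linarith
    exact lt_of_pow_lt_pow_left₀ 2 hr0.le this
  have hτb : (τ : ℂ) ∈ ball (0 : ℂ) 1 := by
    rw [mem_ball_zero_iff, Complex.norm_real, Real.norm_of_nonneg hτ0.le]
    exact hτ1
  have hτb' : -(τ : ℂ) ∈ ball (0 : ℂ) 1 := by
    rw [mem_ball_zero_iff, norm_neg, Complex.norm_real, Real.norm_of_nonneg hτ0.le]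
    exact hτ1
  have hex := fun m => exists_dom (n := n) K hi hδ hr0 hr2 hrτ hτ0 hτ1 m
  choose Ω hΩ using hex
  set z0 : Fin n → ℂ := par i0 i1 ((0 : ℕ) * al K) r (-(τ : ℂ)) with hz0
  set w0 : Fin n → ℂ := par i0 i1 ((K : ℕ) * al K) r (τ : ℂ) with hw0
  have hz0Ω : ∀ m, z0 ∈ Ω m := fun m => (hΩ m).disc 0 (Nat.zero_le _) _ hτb'
  have hw0Ω : ∀ m, w0 ∈ Ω m := fun m => (hΩ m).disc K le_rfl _ hτb
  -- a short chain of `K + 1` discs
  set M : ℝ := ∑ _j ∈ Finset.range (K + 1), poincare (-(τ : ℂ)) (τ : ℂ) with hM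
  have hshort : ∀ m, IsChain (Ω m) (K + 1) z0 w0 M := by
    intro m
    have hshift : ∀ j : ℕ, par i0 i1 ((j : ℝ) * al K) r (τ : ℂ) =
        par i0 i1 (((j + 1 : ℕ) : ℝ) * al K) r (-(τ : ℂ)) := by
      intro j
      rw [par_shift (j * al K) (al K) r τ (cos_half_pos K).ne' hrτ]
      congr 1
      push_cast
      ring
    refine ⟨fun j => par i0 i1 ((j : ℝ) * al K) r (-(τ : ℂ)),
      fun j => par i0 i1 ((j : ℝ) * al K) r, fun _ => -(τ : ℂ), fun _ => (τ : ℂ), rfl, ?_, ?_, ?_, rfl⟩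
    · exact (hshift K).symm
    · intro j hj
      rcases Nat.lt_or_ge j (K + 1) with h | h
      · exact (hΩ m).disc j (by omega) _ hτb'
      · have : j = K + 1 := le_antisymm hj h
        subst this
        show par i0 i1 (((K + 1 : ℕ) : ℝ) * al K) r (-(τ : ℂ)) ∈ Ω m
        rw [← hshift K]
        exact hw0Ω m
    · intro j hj
      exact ⟨(par_differentiable i0 i1 _ r).differentiableOn, fun x hx => (hΩ m).disc j (by omega) x hx,
        hτb', hτb, rfl, hshift j⟩
  have hkob : ∀ m, kob (Ω m) z0 w0 ≤ M := by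
    intro m
    apply csInf_le
    · exact ⟨0, fun L ⟨k, hL⟩ => chain_length_nonneg hL⟩
    · exact ⟨K + 1, hshort m⟩
  by_contra hcon
  push Not at hcon
  have hlong : ∀ m, ∃ L, IsChain (Ω m) K z0 w0 L ∧ L ≤ M := by
    intro m
    obtain ⟨L, hL, hLk⟩ := hcon (Ω m) (hΩ m).spc z0 (hz0Ω m) w0 (hw0Ω m)
    exact ⟨L, hL, hLk.trans (hkob m)⟩
  choose L hL hLM using hlong
  have hnorm := fun m => normalise (hL m) (hLM m)
  choose p g t hp0 hpK hj using hnorm
  have hT : Real.tanh M < 1 := (Real.tanh_bijOn.mapsTo (mem_univ M) : Real.tanh M ∈ Ioo (-1 : ℝ) 1).2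
  have hR : 0 ≤ cA K + 5 * δ := by
    unfold cA
    positivity
  have hPc : Continuous (PP K i0 i1) := (PP_contDiff K i0 i1).continuous
  obtain ⟨P, G, s, hP0, hPK, hG⟩ := limit_chain (n := n) (K := K) (T := Real.tanh M)
    (R := √(cA K + 5 * δ)) hT hPc hp0 hpK (fun m j hjK => (hj m j hjK).1)
    (fun m j hjK x hx => by
      rw [Real.sq_sqrt hR]
      exact (hΩ m).bd _ ((hj m j hjK).2.1 x hx)) (Real.sqrt_nonneg _)
    (fun j hjK x hx => by
      rw [tendsto_zero_iff_norm_tendsto_zero]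
      have h1 : Tendsto (fun m : ℕ => √(cB K / m)) atTop (𝓝 0) := by
        have h2 : Tendsto (fun m : ℕ => cB K / (m : ℝ)) atTop (𝓝 0) :=
          tendsto_const_nhds.div_atTop tendsto_natCast_atTop_atTop
        have h3 := h2.sqrt
        rwa [Real.sqrt_zero] at h3
      apply squeeze_zero' (Eventually.of_forall fun m => norm_nonneg _) _ h1
      filter_upwards [eventually_gt_atTop 0] with m hm
      apply Real.le_sqrt_of_sq_le
      rw [le_div_iff₀ (by exact_mod_cast hm), mul_comm]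
      exact (hΩ m).small _ ((hj m j hjK).2.1 x hx))
    (fun m j hjK => (hj m j hjK).2.2.1) (fun m j hjK => (hj m j hjK).2.2.2.1)
    (fun m j hjK => (hj m j hjK).2.2.2.2)
  -- each limit disc lies in one line
  have hidx : ∀ j, ∃ i, j < K → i ≤ K ∧ ∀ x ∈ ball (0 : ℂ) 1, lin i0 i1 (i * al K) (G j x) = 0 := by
    intro j
    by_cases hjK : j < K
    · obtain ⟨i, hi, h⟩ := one_factor (N := K + 1) (l := fun i => lin i0 i1 (i * al K))
        (fun i => (lin_contDiff i0 i1 _).differentiable (by norm_num)) (hG j hjK).1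
        (fun x hx => ((hG j hjK).2.1 x hx).2)
      exact ⟨i, fun _ => ⟨by omega, h⟩⟩
    · exact ⟨0, fun h => absurd h hjK⟩
  choose idx hidx using hidx
  have h00 : (0 : ℂ) ∈ ball (0 : ℂ) 1 := mem_ball_self one_pos
  -- the first line
  have hline0 : ∀ i ≤ K, lin i0 i1 (i * al K) z0 = 0 → i = 0 := by
    intro i hiK h
    rw [hz0, lin_par hi] at h
    apply dist_zero hiK
    have e : ((i : ℝ) * al K - ((0 : ℕ) : ℝ) * al K) = i * al K := by push_cast; ring
    rw [e] at h
    have h2 : (((Real.cos (i * al K) - Real.tan (al K / 2) * Real.sin (i * al K) - 1 : ℝ)) : ℂ) = 0 := by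
      rw [← hrτ]
      push_cast
      rw [← h]
      push_cast
      ring
    have h3 : Real.cos (i * al K) - Real.tan (al K / 2) * Real.sin (i * al K) - 1 = 0 := by
      exact_mod_cast h2
    linarith
  have hlineK : ∀ i ≤ K, lin i0 i1 (i * al K) w0 = 0 → i = K := by
    intro i hiK h
    rw [hw0, lin_par hi] at h
    have hd : K - i = 0 := by
      apply dist_zero (K := K) (d := K - i) (by omega)
      have e : ((i : ℝ) * al K - (K : ℝ) * al K) = -(((K - i : ℕ) : ℝ) * al K) := by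
        rw [Nat.cast_sub hiK]; ring
      rw [e, Real.cos_neg, Real.sin_neg] at h
      have h2 : (((Real.cos (((K - i : ℕ) : ℝ) * al K) - Real.tan (al K / 2) *
          Real.sin (((K - i : ℕ) : ℝ) * al K) - 1 : ℝ)) : ℂ) = 0 := by
        rw [← hrτ]
        push_cast
        rw [← h]
        push_cast
        ring
      have h3 : Real.cos (((K - i : ℕ) : ℝ) * al K) - Real.tan (al K / 2) *
          Real.sin (((K - i : ℕ) : ℝ) * al K) - 1 = 0 := by exact_mod_cast h2
      linarith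
    omega
  -- consecutive lines
  have hstep : ∀ i ≤ K, ∀ i' ≤ K, ∀ q : Fin n → ℂ, nsq q ≤ √(cA K + 5 * δ) ^ 2 →
      lin i0 i1 (i * al K) q = 0 → lin i0 i1 (i' * al K) q = 0 → i' ≤ i + 1 := by
    intro i hiK i' hi'K q hq h1 h2
    by_contra h3
    push Not at h3
    have h4 := lines_meet hi (Real.sqrt_nonneg _) hq h2 h1
    have e : ((i' : ℝ) * al K - (i : ℝ) * al K) / 2 = (((i' - i : ℕ) : ℝ) * al K) / 2 := by
      rw [Nat.cast_sub (by omega)]; ring
    rw [e] at h4
    set d : ℕ := i' - i with hd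
    have hd2 : 2 ≤ d := by omega
    have hdK : d ≤ K := by omega
    have hd2' : (2 : ℝ) ≤ d := by exact_mod_cast hd2
    have h5 : al K ≤ (d : ℝ) * al K / 2 := by
      have := al_pos K
      nlinarith
    have h6 := mul_al_lt (K := K) (d := d) (by omega)
    have h7 : 0 ≤ Real.cos ((d : ℝ) * al K / 2) := by
      apply Real.cos_nonneg_of_neg_pi_div_two_le_of_le
      · have := al_pos K
        have : 0 ≤ (d : ℝ) * al K / 2 := by positivity
        linarith [Real.pi_pos]
      · linarith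
    rw [abs_of_nonneg h7] at h4
    have h8 : Real.cos ((d : ℝ) * al K / 2) ≤ Real.cos (al K) := by
      apply Real.cos_le_cos_of_nonneg_of_le_pi (al_pos K).le _ h5
      linarith [Real.pi_pos]
    have h9 : 1 ≤ Real.cos (al K) * √(cA K + 5 * δ) :=
      h4.trans (mul_le_mul_of_nonneg_right h8 (Real.sqrt_nonneg _))
    have h10 : 1 ≤ (Real.cos (al K) * √(cA K + 5 * δ)) ^ 2 := by nlinarith
    rw [mul_pow, Real.sq_sqrt hR] at h10
    have h11 : Real.cos (al K) ^ 2 * cB K = 1 := by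
      unfold cB
      have := (cos_al_pos K).ne'
      field_simp
    have h12 : cA K + 5 * δ < cB K := by rw [hδ]; linarith
    have h13 : 0 < Real.cos (al K) ^ 2 := by have := cos_al_pos K; positivity
    nlinarith
  -- the indices grow slowly
  have hslow : ∀ j < K, idx j ≤ j := by
    intro j
    induction j with
    | zero =>
      intro hjK
      have h1 := (hidx 0 hjK).2 0 h00
      rw [(hG 0 hjK).2.2.2.1, hP0] at h1
      exact (hline0 _ (hidx 0 hjK).1 h1).le
    | succ j ih =>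
      intro hjK
      have hjK' : j < K := by omega
      have h1 := ih hjK'
      have h2 : idx (j + 1) ≤ idx j + 1 := by
        have hs := (hG j hjK').2.2.1
        apply hstep (idx j) (hidx j hjK').1 (idx (j + 1)) (hidx (j + 1) hjK).1 (G j (s j))
          ((hG j hjK').2.1 (s j) hs).1 ((hidx j hjK').2 (s j) hs)
        rw [(hG j hjK').2.2.2.2, ← (hG (j + 1) hjK).2.2.2.1]
        exact (hidx (j + 1) hjK).2 0 h00
      omega
  rcases Nat.eq_zero_or_pos K with h | h
  · have h1 : z0 = w0 := by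
      rw [← hP0, ← hPK, h]
    have h2 := congrFun h1 i1
    rw [hz0, hw0, par_i1 hi, par_i1 hi] at h2
    have h3 : ((K : ℕ) : ℝ) * al K = 0 := by rw [h]; simp
    have h4 : (((0 : ℕ) : ℝ)) * al K = 0 := by simp
    rw [h3, h4, Real.sin_zero, Real.cos_zero] at h2
    have h5 : ((r * τ : ℝ) : ℂ) = 0 := by
      push_cast at h2 ⊢
      linear_combination (-1 / 2 : ℂ) * h2
    have h6 : r * τ = 0 := by exact_mod_cast h5
    rw [hrτ] at h6
    exact ht.ne' h6
  · obtain ⟨k, hk⟩ := Nat.exists_eq_succ_of_ne_zero h.ne'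
    have hkK : k < K := by omega
    have h1 := hslow k hkK
    have h2 := (hidx k hkK).2 (s k) (hG k hkK).2.2.1
    rw [(hG k hkK).2.2.2.2] at h2
    have h3 : k + 1 = K := by omega
    rw [h3, hPK] at h2
    have h4 := hlineK _ (hidx k hkK).1 h2
    omega

end Pool.Agent.V1171.Kob
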